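import Pool.Agent.MP_7b45f6_mp.H32.Spec

/-!
# Attaching, mirroring and translating ladders and hairpins
-/

set_option autoImplicit false

namespace Pool.Agent.MP_7b45f6_mp.H32

open Classical Filter Topology

namespace LadA

theorem inj_of {f : P → P} (hd : ∀ p q, d1 (f p) (f q) = d1 p q) : Function.Injective f :=
  fun p q e => by
    by_contra h
    have := d1_pos h
    rw [← hd, e, d1_self] at this
    omega

theorem good_map {f : P → P} (hd : ∀ p q, d1 (f p) (f q) = d1 p q) (hz : ∀ p, f p 2 = p 2)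
    {w : List P} (h : Good w) : Good (w.map f) := by
  refine ⟨h.1.map (inj_of hd), fun p hp => ?_⟩
  obtain ⟨q, hq, rfl⟩ := List.mem_map.1 hp
  rw [hz]
  exact h.2 q hq

theorem chain_map {f : P → P} (hd : ∀ p q, d1 (f p) (f q) = d1 p q) {w : List P}
    (h : w.IsChain Adj) : (w.map f).IsChain Adj := by
  rw [← jn_eq_zero, jn] at h ⊢
  rw [cs_map (fun p q => if_congr (by rw [Adj, Adj, hd]) rfl rfl), h]

theorem chain_rev {w : List P} (h : w.IsChain Adj) : w.reverse.IsChain Adj := by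
  rw [← jn_eq_zero] at h ⊢
  rw [jn_reverse, h]

theorem chain_app {u v : List P} (hu : u ≠ []) (hv : v ≠ []) (h1 : u.IsChain Adj)
    (h2 : v.IsChain Adj) (h : Adj (lt u) (hd v)) : (u ++ v).IsChain Adj := by
  rw [← jn_eq_zero, jn] at h1 h2 ⊢
  rw [cs_append _ hu hv, h1, h2, jmp_adj h]

theorem ew_map (θ : Par) {f : P → P} (hd : ∀ p q, d1 (f p) (f q) = d1 p q) (hz : ∀ p, f p 2 = p 2)
    (w : List P) : ew θ (w.map f) = ew θ w := by
  rw [ew, phi_map θ hd hz, ew]

theorem ew_perm (θ : Par) {w w' : List P} (h : w.Perm w') : ew θ w = ew θ w' := by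
  rw [ew, ew, List.toFinset_eq_of_perm _ _ h]

theorem e0 (p : P) : (p + ev 0) 0 = p 0 + 1 := by simp

theorem e2 (p : P) : (p + ev 0) 2 = p 2 := by simp [ev_apply]

theorem t2 {t : P} (h : t 2 = 0) (p : P) : (p + t) 2 = p 2 := by simp [h]

theorem one (θ : Par) (l1 l2 r1 r2 : P) (m n n' : ℕ) (G G' : ℝ) (hG : 0 ≤ G) (hG' : 0 ≤ G')
    (hr : r1 0 = r2 0) (h : Lb (Ld l1 l2 r1 r2 m n) (fun x => ew θ (x.1 ++ x.2)) G)
    (h' : Lb (Hp (r1 + ev 0 + ev 0) (r2 + ev 0 + ev 0) n') (ew θ) G') :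
    Lb (Hp l1 l2 (n + n' + 2) ∩ Vis) (ew θ) (G * G' * Real.exp (-(2 * kap θ))) := by
  have key := (h.prod h' hG hG').transfer (Y := Hp l1 l2 (n + n' + 2) ∩ Vis) (g := ew θ)
    (fan_fun fun y : List P => ((y.take m, y.drop (m + ((n' + 1) + 1))), (y.drop (m + 1)).take n'))
    (Real.exp_pos (2 * kap θ)) one_pos (fun y => (ew_pos θ y).le) ?_
  · rwa [Nat.cast_one, mul_one, div_eq_mul_inv, ← Real.exp_neg] at key
  rintro ⟨⟨U, W⟩, c⟩ ⟨⟨g, hm, hn, hU, hW, cU, cW, h1, h2, h3, h4, hx, hv⟩,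
    gc, hn', hc, h5, h6, cc, hx'⟩
  simp only at g hm hn hU hW cU cW h1 h2 h3 h4 hx hv gc hn' hc h5 h6 cc hx'
  have m1 : r1 ∈ U := h2 ▸ lt_mem hU
  have m2 : r2 ∈ W := h3 ▸ hd_mem hW
  have hne : r1 + ev 0 ≠ r2 + ev 0 := fun e =>
    List.disjoint_of_nodup_append g.1 m1 (add_right_cancel e ▸ m2)
  rw [e0, e0] at hx'
  have hp : (U ++ ([r1 + ev 0] ++ (c ++ ([r2 + ev 0] ++ W)))).Perm
      ((r1 + ev 0) :: (r2 + ev 0) :: (U ++ W ++ c)) := by
    rw [List.perm_iff_count]
    intro a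
    simp only [List.count_append, List.count_cons, List.count_nil]
    omega
  have hd1 : (U ++ W).Disjoint c := fun p hp hp' => by
    have := (hx p hp).2
    have := hx' p hp'
    omega
  have g1 : Good (U ++ W ++ c) := ⟨g.1.append gc.1 hd1, fun p hp =>
    (List.mem_append.1 hp).elim (g.2 p) (gc.2 p)⟩
  have hout : ∀ q : P, q 0 = r1 0 + 1 → q ∉ U ++ W ++ c := fun q hq hp => by
    rcases List.mem_append.1 hp with hp | hp
    · have := (hx q hp).2
      omega
    · have := hx' q hp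
      omega
  have g2 : Good ((r1 + ev 0) :: (r2 + ev 0) :: (U ++ W ++ c)) := by
    refine ⟨List.nodup_cons.2 ⟨fun hp => ?_, List.nodup_cons.2
      ⟨hout _ (by rw [e0, hr]), g1.1⟩⟩, fun p hp => ?_⟩
    · exact (List.mem_cons.1 hp).elim hne (hout _ (e0 _))
    · rcases List.mem_cons.1 hp with rfl | hp
      · rw [e2]
        exact g.2 _ (List.mem_append_left _ m1)
      rcases List.mem_cons.1 hp with rfl | hp
      · rw [e2]
        exact g.2 _ (List.mem_append_right _ m2)
      · exact g1.2 p hp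
  refine ⟨U ++ ([r1 + ev 0] ++ (c ++ ([r2 + ev 0] ++ W))),
    ⟨⟨g2.perm hp, ?_, by simp [hU], by rw [hd_append hU, h1], ?_, ?_, fun p hp' => ?_⟩, ?_⟩,
    ?_, ?_⟩
  · rw [hp.length_eq, List.length_cons, List.length_cons, List.length_append, hn, hn']
  · rw [← List.append_assoc, ← List.append_assoc, ← List.append_assoc, lt_append _ hW, h4]
  · refine chain_app hU (by simp) cU (chain_app (by simp) (by simp) (by simp)
      (chain_app hc (by simp) cc (chain_app (by simp) hW (by simp) cW ?_) ?_) ?_) ?_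
    · rw [h3]
      exact (adj_ev _ _).symm
    · rw [h6]
      exact (adj_ev _ _).symm
    · rw [hd_append hc, h5]
      exact adj_ev _ _
    · rw [h2]
      exact adj_ev _ _
  · have h7 := hx r1 (List.mem_append_left _ m1)
    rcases List.mem_cons.1 (hp.subset hp') with rfl | hp'
    · rw [e0]
      omega
    rcases List.mem_cons.1 hp' with rfl | hp'
    · rw [e0]
      omega
    rcases List.mem_append.1 hp' with hp' | hp'
    · exact (hx p hp').1
    · have := hx' p hp'
      omega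
  · obtain ⟨p, hp1, hp2⟩ := hv
    exact ⟨p, hp.symm.subset (List.mem_cons_of_mem _ (List.mem_cons_of_mem _
      (List.mem_append_left _ hp1))), hp2⟩
  · subst hm hn'
    simp
  · rw [ew_perm θ hp, ew, ew, ew, ← Real.exp_add, ← Real.exp_add, Real.exp_le_exp]
    have k1 := phi_union θ (V := (U ++ W).toFinset) (W := c.toFinset) ∅
      (List.disjoint_toFinset_iff_disjoint.2 hd1) fun p hp q hq ha => by
        have a1 := (hx p (List.mem_toFinset.1 hp)).2
        have a2 := hx' q (List.mem_toFinset.1 hq)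
        have a3 := coord_le_d1 p q 0
        rw [Adj] at ha
        omega
    rw [← List.toFinset_append] at k1
    have k2 := phi_near θ (V := (U ++ W ++ c).toFinset)
      (W := ((r1 + ev 0) :: (r2 + ev 0) :: (U ++ W ++ c)).toFinset) (m := 2)
      (fun p hp => List.mem_toFinset.2 (List.mem_cons_of_mem _ (List.mem_cons_of_mem _
        (List.mem_toFinset.1 hp)))) (by rw [g1.card, g2.card]; simp)
    rw [abs_le] at k1 k2
    simp only [Finset.card_empty, Nat.cast_zero, mul_zero, neg_zero, Nat.cast_ofNat] at k1 k2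
    linarith [k1.1, k2.1]

theorem two (θ : Par) (l1 l2 r1 r2 : P) (m n : ℕ) (G : ℝ) (c : ℤ)
    (h : Lb (Ld l1 l2 r1 r2 m n) (fun x => ew θ (x.1 ++ x.2)) G) :
    Lb (Ld (mir 0 c r1) (mir 0 c r2) (mir 0 c l1) (mir 0 c l2) m n)
      (fun x => ew θ (x.1 ++ x.2)) G := by
  have key := h.transfer (Y := Ld (mir 0 c r1) (mir 0 c r2) (mir 0 c l1) (mir 0 c l2) m n)
    (g := fun x => ew θ (x.1 ++ x.2))
    (fan_fun fun y : List P × List P =>
      ((y.1.map (mir 0 c)).reverse, (y.2.map (mir 0 c)).reverse))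
    one_pos one_pos (fun y => (ew_pos θ _).le) ?_
  · simpa using key
  rintro ⟨U, W⟩ ⟨g, hm, hn, hU, hW, cU, cW, h1, h2, h3, h4, hx, hv⟩
  simp only at g hm hn hU hW cU cW h1 h2 h3 h4 hx hv
  have hz : ∀ p : P, mir 0 c p 2 = p 2 := mir_ne (by decide) c
  have hp : ((U.map (mir 0 c)).reverse ++ (W.map (mir 0 c)).reverse).Perm
      ((U ++ W).map (mir 0 c)) := by
    rw [List.map_append]
    exact (List.reverse_perm _).append (List.reverse_perm _)
  refine ⟨((U.map (mir 0 c)).reverse, (W.map (mir 0 c)).reverse),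
    ⟨(good_map (d1_mir 0 c) hz g).perm hp, by simpa using hm, by simpa using hn,
      by simpa using hU, by simpa using hW, chain_rev (chain_map (d1_mir 0 c) cU),
      chain_rev (chain_map (d1_mir 0 c) cW), ?_, ?_, ?_, ?_, fun p hp' => ?_, ?_⟩, ?_, ?_⟩
  · rw [hd_reverse, lt_map _ hU, h2]
  · rw [lt_reverse, hd_map _ hU, h1]
  · rw [hd_reverse, lt_map _ hW, h4]
  · rw [lt_reverse, hd_map _ hW, h3]
  · obtain ⟨q, hq, rfl⟩ := List.mem_map.1 (hp.subset hp')
    have := hx q hq
    simp only [mir_same]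
    omega
  · obtain ⟨p, hp1, hp2⟩ := hv
    exact ⟨mir 0 c p, hp.symm.subset (List.mem_map_of_mem hp1), (hz p).trans hp2⟩
  · simp [Function.comp_def]
  · rw [ew_perm θ hp, ew_map θ (d1_mir 0 c) hz, one_mul]

theorem map_back (t : P) (w : List P) : (w.map (· + t)).map (· + -t) = w := by
  simp [Function.comp_def]

theorem three (θ : Par) (a b t : P) (n : ℕ) (G : ℝ) (ht : t 2 = 0) (h : Lb (Hp a b n) (ew θ) G) :
    Lb (Hp (a + t) (b + t) n) (ew θ) G := by
  have key := h.transfer (Y := Hp (a + t) (b + t) n) (g := ew θ)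
    (fan_fun fun y : List P => y.map (· + -t)) one_pos one_pos (fun y => (ew_pos θ _).le) ?_
  · simpa using key
  rintro w ⟨g, hn, hw, h1, h2, cw, hx⟩
  have hd' : ∀ p q : P, d1 (p + t) (q + t) = d1 p q := fun p q => d1_add p q t
  refine ⟨w.map (· + t), ⟨good_map hd' (t2 ht) g, by simpa using hn, by simpa using hw,
    by rw [hd_map _ hw, h1], by rw [lt_map _ hw, h2], chain_map hd' cw, fun p hp => ?_⟩,
    (map_back t w).symm, by rw [ew_map θ hd' (t2 ht), one_mul]⟩
  obtain ⟨q, hq, rfl⟩ := List.mem_map.1 hp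
  simpa using hx q hq

theorem straight (m : ℕ) : ∀ a b : P, Adj a b → a 0 = b 0 → 0 ≤ a 2 → 0 ≤ b 2 →
    (Hp a b (2 * (m + 1))).Nonempty := by
  induction m with
  | zero =>
    intro a b h h0 ha hb
    exact ⟨[a, b], ⟨by simpa using h.ne, by simp [ha, hb]⟩, rfl, by simp, rfl, by simp,
      by simpa using h, by simp [h0]⟩
  | succ m ih =>
    intro a b h h0 ha hb
    obtain ⟨w, g, hn, hw, h1, h2, cw, hx⟩ := ih (a + ev 0) (b + ev 0) ((adj_add _ _ _).2 h)
      (by rw [e0, e0, h0]) (by rwa [e2]) (by rwa [e2])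
    rw [e0] at hx
    have k1 : a ∉ w := fun hp => by
      have := hx a hp
      omega
    have k2 : b ∉ w := fun hp => by
      have := hx b hp
      omega
    refine ⟨[a] ++ (w ++ [b]), ⟨?_, fun p hp => ?_⟩, ?_, by simp, rfl, ?_, ?_, fun p hp => ?_⟩
    · have : ([a] ++ (w ++ [b])).Perm (a :: b :: w) := (List.perm_append_singleton _ _).cons a
      rw [this.nodup_iff]
      simp [h.ne, k1, k2, g.1]
    · simp only [List.mem_append, List.mem_singleton] at hp
      rcases hp with rfl | hp | rfl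
      exacts [ha, g.2 p hp, hb]
    · simp [hn]
      omega
    · rw [← List.append_assoc, lt_concat]
    · refine chain_app (by simp) (by simp) (by simp) (chain_app hw (by simp) cw (by simp) ?_) ?_
      · rw [h2]
        exact (adj_ev _ _).symm
      · rw [hd_append hw, h1]
        exact adj_ev _ _
    · simp only [List.mem_append, List.mem_singleton] at hp
      rcases hp with rfl | hp | rfl
      · exact le_rfl
      · have := hx p hp
        omega
      · exact h0.le

theorem four (θ : Par) (a b : P) (m : ℕ) (h : Adj a b) (h0 : a 0 = b 0) (ha : 0 ≤ a 2)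
    (hb : 0 ≤ b 2) (hm : 1 ≤ m) : Lb (Hp a b (2 * m)) (ew θ) (Real.exp (-(kap θ * (2 * m)))) := by
  obtain ⟨k, rfl⟩ : ∃ k, m = k + 1 := ⟨m - 1, by omega⟩
  obtain ⟨w, hw⟩ := straight k a b h h0 ha hb
  refine (lb_of_mem (ew θ) hw).mono le_rfl (fun _ _ => le_rfl) (Real.exp_le_exp.2 ?_)
  have := (abs_le.1 (abs_phi_le θ w.toFinset)).1
  rw [hw.1.card, hw.2.1] at this
  exact_mod_cast this

theorem five (θ : Par) (a b : P) (n : ℕ) (G : ℝ) (hab : Adj a b)
    (h : Lb (Hp a b n ∩ Vis) (ew θ) G) : Lb (Tour 0 n) (ew θ) (G / (n + 1)) := by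
  have key := h.transfer (Y := Tour 0 n) (g := ew θ)
    (fan_dec (Finset.range (n + 1)) fun k (y : List P) =>
      (y.rotate k).map (· + -(hd (y.rotate k) - a)))
    one_pos (by simp) (fun y => (ew_pos θ _).le) ?_
  · simpa using key
  rintro w ⟨⟨g, hn, hw, h1, h2, cw, -⟩, p, hp, hp2⟩
  obtain ⟨u, v, rfl⟩ := List.append_of_mem hp
  have ht : u ++ p :: v ∈ Tour a n := ⟨g, hn, h1, cw, by rw [h1, h2]; exact hab.symm⟩
  obtain ⟨g', hn', -, cw', ha'⟩ := Tour.rot ht
  have hz : (-p) 2 = 0 := by simpa using hp2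
  have hd' : ∀ x y : P, d1 (x + -p) (y + -p) = d1 x y := fun x y => d1_add x y _
  have hne : p :: v ++ u ≠ [] := by simp
  refine ⟨(p :: v ++ u).map (· + -p), ⟨good_map hd' (t2 hz) g', by simpa using hn', by simp,
    chain_map hd' cw', ?_⟩, ⟨(p :: v).length, ?_, ?_⟩, ?_⟩
  · rw [lt_map _ hne, hd_map _ hne]
    exact (adj_add _ _ _).2 ha'
  · rw [Finset.mem_range, ← hn, List.length_append]
    omega
  · rw [← List.map_rotate, List.rotate_append_length_eq, hd_map _ hw, h1,
      show a + -p - a = -p by abel, map_back]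
  · rw [ew_map θ hd' (t2 hz), one_mul]
    exact (ew_perm θ List.perm_append_comm).le

end LadA

theorem ladA : LadAStmt := fun θ =>
  ⟨LadA.one θ, LadA.two θ, LadA.three θ, LadA.four θ,
    fun a b n G hab _ h => LadA.five θ a b n G hab h⟩

end Pool.Agent.MP_7b45f6_mp.H32
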